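import Pool.Agent.helper69.SN.SpecA

/-!
Row sn:aTAY (helper96): the Taylor estimate for the multi-affine polynomials, from the other rows.
-/

open scoped Pointwise ContDiff
open MeasureTheory Set Filter Topology

set_option autoImplicit false
set_option linter.unusedVariables false

namespace Pool.Agent.helper69.SN

open Pool.Agent.helper83.SC

/-! ### Extension by zero -/

lemma aTAY_mD_zero {m : ℕ} (M : Fin m → Mat m) (j : Fin m) (h : M j = 0) : mD M = 0 := by
  unfold mD
  have h1 : ∀ σ : Equiv.Perm (Fin m),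
      (Matrix.of fun i k => M (σ i) i k : Matrix (Fin m) (Fin m) ℝ).det = 0 := by
    intro σ
    apply Matrix.det_eq_zero_of_row_eq_zero (σ.symm j)
    intro k
    simp [h]
  simp [h1]

/-- the extended family -/
def aTAY_sn {m n : ℕ} (B : Fin n → Mat m) (C : Mat m) : Fin (n + 1) → Mat m :=
  Fin.snoc (α := fun _ => Mat m) B C

lemma aTAY_sn_cast {m n : ℕ} (B : Fin n → Mat m) (C : Mat m) (i : Fin n) :
    aTAY_sn B C i.castSucc = B i := by
  simp [aTAY_sn]

lemma aTAY_sn_last {m n : ℕ} (B : Fin n → Mat m) (C : Mat m) :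
    aTAY_sn B C (Fin.last n) = C := by
  simp [aTAY_sn]

lemma aTAY_slot_sn {m n : ℕ} (B : Fin n → Mat m) (C : Mat m) (T : Finset (Fin n)) (M : Mat m) :
    slot (aTAY_sn B C) (T.map Fin.castSuccEmb) M = slot B T M := by
  funext j
  unfold slot
  by_cases h : (j : ℕ) < T.card
  · have h' : (j : ℕ) < (T.map Fin.castSuccEmb).card := by rw [Finset.card_map]; exact h
    rw [dif_pos h, dif_pos h']
    have hcard : (T.map (Fin.castSuccEmb : Fin n ↪ Fin (n + 1))).card = T.card :=
      Finset.card_map _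
    have key : (fun x : Fin (T.map (Fin.castSuccEmb : Fin n ↪ Fin (n + 1))).card =>
        Fin.castSucc (T.orderEmbOfFin rfl (Fin.cast hcard x))) =
        ((T.map (Fin.castSuccEmb : Fin n ↪ Fin (n + 1))).orderEmbOfFin rfl) := by
      apply Finset.orderEmbOfFin_unique
      · intro x
        rw [Finset.mem_map]
        exact ⟨_, Finset.orderEmbOfFin_mem T rfl _, rfl⟩
      · intro x y hxy
        have h1 : Fin.cast hcard x < Fin.cast hcard y := hxy
        have h2 := (T.orderEmbOfFin rfl).strictMono h1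
        exact Fin.castSucc_lt_castSucc_iff.mpr h2
    have h3 := congrFun key ⟨(j : ℕ), h'⟩
    rw [← h3, aTAY_sn_cast]
    rfl
  · have h' : ¬ (j : ℕ) < (T.map Fin.castSuccEmb).card := by rw [Finset.card_map]; exact h
    rw [dif_neg h, dif_neg h']

lemma aTAY_Ph_sn {m n : ℕ} (B : Fin n → Mat m) (M : Mat m) :
    Ph (aTAY_sn B 0) M = Ph B M := by
  unfold Ph
  symm
  apply Fintype.sum_of_injective (fun T : Finset (Fin n) => T.map Fin.castSuccEmb)
  · exact Finset.map_injective _
  · intro T hT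
    have hl : Fin.last n ∈ T := by
      by_contra hl
      apply hT
      refine ⟨Finset.univ.filter (fun i : Fin n => i.castSucc ∈ T), ?_⟩
      ext x
      simp only [Finset.mem_map, Finset.mem_filter, Finset.mem_univ, true_and]
      constructor
      · rintro ⟨y, hy, rfl⟩
        exact hy
      · intro hx
        induction x using Fin.lastCases with
        | last => exact absurd hx hl
        | cast i => exact ⟨i, hx, rfl⟩
    by_cases hc : T.card ≤ m
    · -- the place of the last element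
      have h1 : ∃ a : Fin T.card, T.orderEmbOfFin rfl a = Fin.last n := by
        have h2 : Fin.last n ∈ Set.range (T.orderEmbOfFin rfl) := by
          rw [Finset.range_orderEmbOfFin]
          exact hl
        exact h2
      obtain ⟨a, ha⟩ := h1
      have hz : mD (slot (aTAY_sn B 0) T M) = 0 := by
        apply aTAY_mD_zero _ ⟨(a : ℕ), lt_of_lt_of_le a.2 hc⟩
        unfold slot
        have h3 : ((⟨(a : ℕ), lt_of_lt_of_le a.2 hc⟩ : Fin m) : ℕ) < T.card := a.2
        rw [dif_pos h3]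
        have h4 : (⟨((⟨(a : ℕ), lt_of_lt_of_le a.2 hc⟩ : Fin m) : ℕ), h3⟩ : Fin T.card) = a := by
          ext; rfl
        rw [h4, ha, aTAY_sn_last]
      rw [hz, mul_zero]
    · have h5 : m.descFactorial T.card = 0 := Nat.descFactorial_eq_zero_iff_lt.mpr (by omega)
      rw [h5]
      simp
  · intro T
    rw [Finset.card_map, aTAY_slot_sn]

/-- two polynomials with the same values have the same derivatives -/
lemma aTAY_dPh_congr (hDER : aDER_stmt) {m n n' : ℕ} (B : Fin n → Mat m) (B' : Fin n' → Mat m)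
    (h : ∀ M, Ph B M = Ph B' M) (C : Mat m) (r : ℕ) : ∀ M, dPh B r C M = dPh B' r C M := by
  induction r with
  | zero =>
    intro M
    rw [(hDER B C M 0 0).2, (hDER B' C M 0 0).2, h]
  | succ r ih =>
    intro M
    have h1 := (hDER B C M r 0).1
    have h2 := (hDER B' C M r 0).1
    have h3 : (fun s : ℝ => dPh B r C (M + s • C)) = (fun s : ℝ => dPh B' r C (M + s • C)) := by
      funext s
      exact ih _
    rw [h3] at h1
    have h4 := h1.unique h2
    simpa using h4

lemma aTAY_dlin (hDER : aDER_stmt) {m n : ℕ} (B : Fin n → Mat m) (C : Mat m) (t : ℝ) (M : Mat m) :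
    dPh B 1 (t • C) M = t * dPh B 1 C M := by
  have h1 := (hDER B (t • C) M 0 0).1
  have h2 : (fun s : ℝ => dPh B 0 (t • C) (M + s • t • C)) =
      (fun s : ℝ => dPh B 0 C (M + (s * t) • C)) := by
    funext s
    rw [(hDER B (t • C) (M + s • t • C) 0 0).2, (hDER B C (M + (s * t) • C) 0 0).2, smul_smul]
  rw [h2] at h1
  have h3 : HasDerivAt (fun s : ℝ => s * t) t 0 := by
    simpa using (hasDerivAt_id (0 : ℝ)).mul_const t
  have h4 := (hDER B C M 0 (0 * t)).1
  have h5 := HasDerivAt.comp (0 : ℝ) h4 h3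
  have h6 := h1.unique h5
  simp only [zero_smul, add_zero, zero_mul, zero_add] at h6
  rw [h6, mul_comm]

lemma aTAY_upd_r (hDER : aDER_stmt) {m n n' : ℕ} (B : Fin n → Mat m) (B' : Fin n' → Mat m)
    (C : Mat m) (t : ℝ) (h : ∀ M, Ph B' M = Ph B M + t * dPh B 1 C M) (r : ℕ) :
    ∀ M, dPh B' r C M = dPh B r C M + t * dPh B (r + 1) C M := by
  induction r with
  | zero =>
    intro M
    rw [(hDER B' C M 0 0).2, (hDER B C M 0 0).2, h]
  | succ r ih =>
    intro M
    have h1 := (hDER B' C M r 0).1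
    have h2 := (hDER B C M r 0).1
    have h2' := (hDER B C M (r + 1) 0).1
    have h3 : (fun s : ℝ => dPh B' r C (M + s • C)) =
        (fun s : ℝ => dPh B r C (M + s • C) + t * dPh B (r + 1) C (M + s • C)) := by
      funext s
      exact ih _
    rw [h3] at h1
    have h4 := h1.unique (h2.add (h2'.const_mul t))
    simpa using h4

/-! ### Weights -/

lemma aTAY_psd_sc {m n : ℕ} (A : Fin n → Mat m) (hA : Psd A) (lam : Fin n → ℝ)
    (hl : ∀ i, 0 ≤ lam i) : Psd (sc lam A) := fun i => (hA i).smul (hl i)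

lemma aTAY_up (hPSD : aPSD_stmt) (hSUP : aSUP_stmt) {m n : ℕ} (A : Fin n → Mat m) (hA : Psd A)
    (lam mu : Fin n → ℝ) (hl : ∀ i, 0 ≤ lam i) (hlm : ∀ i, lam i ≤ mu i) (M : Mat m)
    (hM : M ∈ GG (sc lam A)) : M ∈ GG (sc mu A) := by
  have hmu : ∀ i, 0 ≤ mu i - lam i := fun i => sub_nonneg.mpr (hlm i)
  have h0 : (0 : Mat m) ∈ GG (sc (fun i => mu i - lam i) A) :=
    hPSD _ (aTAY_psd_sc A hA _ hmu) 0 Matrix.PosSemidef.zero
  have h1 := (hSUP A hA lam (fun i => mu i - lam i) hl hmu M 0 hM h0).1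
  have h2 : (fun i => lam i + (mu i - lam i)) = mu := by funext i; ring
  rw [h2, add_zero] at h1
  exact h1

lemma aTAY_scale (hPSD : aPSD_stmt) (hHOM : aHOM_stmt) {m n : ℕ} (A : Fin n → Mat m) (hA : Psd A)
    (lam : Fin n → ℝ) (hl : ∀ i, 0 ≤ lam i) (c : ℝ) (hc : 0 ≤ c) (M : Mat m)
    (hM : M ∈ GG (sc lam A)) : c • M ∈ GG (sc (fun i => c * lam i) A) := by
  rcases hc.eq_or_lt with hc0 | hc0
  · rw [← hc0, zero_smul]
    exact hPSD _ (aTAY_psd_sc A hA _ (fun i => by simp)) 0 Matrix.PosSemidef.zero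
  · refine ⟨?_, ?_⟩
    · have h1 := hM.1
      unfold Matrix.IsSymm at h1 ⊢
      rw [Matrix.transpose_smul, h1]
    · intro t ht
      have h1 := hM.2 (t / c) (div_nonneg ht hc)
      have h2 : sc (fun i => c * lam i) A = sc (fun _ => c) (sc lam A) := by
        funext i
        simp [sc, mul_smul]
      have h3 : c • M + t • (1 : Mat m) = c • (M + (t / c) • (1 : Mat m)) := by
        rw [smul_add, smul_smul, mul_div_cancel₀ _ hc0.ne']
      rw [h2, h3, (hHOM (sc lam A) 0 (M + (t / c) • (1 : Mat m)) c 0).1]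
      calc t ^ m = c ^ m * (t / c) ^ m := by
            rw [← mul_pow, mul_div_cancel₀ _ hc0.ne']
        _ ≤ _ := mul_le_mul_of_nonneg_left h1 (pow_nonneg hc m)

lemma aTAY_path (hPSD : aPSD_stmt) (hSUP : aSUP_stmt) (hHOM : aHOM_stmt) {m n : ℕ}
    (A : Fin n → Mat m) (hA : Psd A) (lam : Fin n → ℝ) (hl : ∀ i, 0 ≤ lam i) (j : Fin n)
    (hj : lam j = 0) (s : ℝ) (hs : 0 ≤ s) (M : Mat m) (hM : M ∈ GG (sc lam A))
    (hM' : M - s • A j ∈ GG (sc (Function.update lam j s) A)) (c : ℝ) (hc : 0 ≤ c) (hc1 : c ≤ 1) :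
    M - (c * s) • A j ∈ GG (sc (Function.update lam j (c * s)) A) := by
  have hl' : ∀ i, 0 ≤ Function.update lam j s i := by
    intro i
    by_cases h : i = j
    · subst h; simpa using hs
    · rw [Function.update_of_ne h]; exact hl i
  have h1 := aTAY_scale hPSD hHOM A hA _ hl' c hc _ hM'
  have h2 := aTAY_scale hPSD hHOM A hA lam hl (1 - c) (by linarith) _ hM
  have h3 := (hSUP A hA (fun i => c * Function.update lam j s i) (fun i => (1 - c) * lam i)
    (fun i => mul_nonneg hc (hl' i)) (fun i => mul_nonneg (by linarith) (hl i)) _ _ h1 h2).1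
  have h4 : (fun i => c * Function.update lam j s i + (1 - c) * lam i) =
      Function.update lam j (c * s) := by
    funext i
    by_cases h : i = j
    · subst h; simp [hj]
    · rw [Function.update_of_ne h, Function.update_of_ne h]; ring
  have h5 : c • (M - s • A j) + (1 - c) • M = M - (c * s) • A j := by
    rw [smul_sub, smul_smul, sub_smul, one_smul]; abel
  rw [h4, h5] at h3
  exact h3

lemma aTAY_rec (hREC : aREC_stmt) (hDER : aDER_stmt) {m n : ℕ} (A : Fin n → Mat m)
    (lam : Fin n → ℝ) (j : Fin n) (hj : lam j = 0) (t : ℝ) (N : Mat m) :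
    Ph (sc (Function.update lam j t) A) N =
      Ph (sc lam A) N + t * dPh (sc lam A) 1 (A j) N := by
  have h1 := hREC (sc (Function.update lam j t) A) j N
  have h2 : Function.update (sc (Function.update lam j t) A) j 0 = sc lam A := by
    funext i
    by_cases h : i = j
    · subst h; simp [sc, hj]
    · rw [Function.update_of_ne h]; simp [sc, Function.update_of_ne h]
  have h3 : sc (Function.update lam j t) A j = t • A j := by simp [sc]
  rw [h2, h3, aTAY_dlin hDER] at h1
  exact h1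

/-- nonnegative affine function -/
lemma aTAY_aff (a b L₀ : ℝ) (h : ∀ L, L₀ ≤ L → 0 ≤ a + L * b) : 0 ≤ b := by
  by_contra hb
  have hb' : 0 < -b := by
    have := not_le.mp hb
    linarith
  have h1 := h (max L₀ ((|a| + 1) / (-b))) (le_max_left _ _)
  have h2 : (|a| + 1) / (-b) ≤ max L₀ ((|a| + 1) / (-b)) := le_max_right _ _
  have h3 : (|a| + 1) / (-b) * (-b) ≤ max L₀ ((|a| + 1) / (-b)) * (-b) :=
    mul_le_mul_of_nonneg_right h2 hb'.le
  have h4 : (|a| + 1) / (-b) * (-b) = |a| + 1 := div_mul_cancel₀ _ hb'.ne'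
  rw [h4] at h3
  have h5 := le_abs_self a
  have h6 : max L₀ ((|a| + 1) / (-b)) * (-b) = -(max L₀ ((|a| + 1) / (-b)) * b) := by ring
  linarith

/-- quadratic version -/
lemma aTAY_quad (a b c : ℝ) (h : ∀ u : ℝ, 0 ≤ u → 0 ≤ a + 2 * u * b + u ^ 2 * c) : 0 ≤ c := by
  by_contra hc
  have hc' : 0 < -c := by
    have := not_le.mp hc
    linarith
  have h0 : 0 ≤ (|a| + 2 * |b| + 1) / (-c) := div_nonneg (by positivity) hc'.le
  obtain ⟨u, hu⟩ : ∃ u : ℝ, u = (|a| + 2 * |b| + 1) / (-c) + 1 := ⟨_, rfl⟩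
  have hu1 : 1 ≤ u := by linarith
  have h2 := h u (by linarith)
  have h3 : |a| + 2 * |b| + 1 ≤ u * (-c) := by
    have h4 : (|a| + 2 * |b| + 1) / (-c) * (-c) = |a| + 2 * |b| + 1 :=
      div_mul_cancel₀ _ hc'.ne'
    have h5 : u * (-c) = (|a| + 2 * |b| + 1) / (-c) * (-c) + (-c) := by rw [hu]; ring
    rw [h5, h4]
    linarith
  have h7 : u * (|a| + 2 * |b| + 1) ≤ u * (u * (-c)) :=
    mul_le_mul_of_nonneg_left h3 (by linarith)
  have h8 : a ≤ u * |a| := by
    have := le_abs_self a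
    nlinarith [abs_nonneg a]
  have h9 : 2 * u * b ≤ u * (2 * |b|) := by
    have := le_abs_self b
    nlinarith [abs_nonneg b]
  nlinarith

/-! ### One index -/

section one

variable (hREC : aREC_stmt) (hDER : aDER_stmt) (hHOM : aHOM_stmt) (hPSD : aPSD_stmt)
  (hSUP : aSUP_stmt) (hDNN : aDNN_stmt)

include hREC hDER hHOM hPSD hSUP hDNN

/-- the higher derivatives are nonnegative along the path -/
lemma aTAY_pos {m n : ℕ} (A : Fin n → Mat m) (hA : Psd A) (lam : Fin n → ℝ)
    (hl : ∀ i, 0 ≤ lam i) (j : Fin n) (hj : lam j = 0) (s : ℝ) (hs : 0 ≤ s) (M : Mat m)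
    (hM : M ∈ GG (sc lam A)) (hM' : M - s • A j ∈ GG (sc (Function.update lam j s) A))
    (c : ℝ) (hc : 0 ≤ c) (hc1 : c ≤ 1) (r : ℕ) :
    0 ≤ dPh (sc lam A) (r + 1) (A j) (M - (c * s) • A j) := by
  have hcs : 0 ≤ c * s := mul_nonneg hc hs
  have h1 := aTAY_path hPSD hSUP hHOM A hA lam hl j hj s hs M hM hM' c hc hc1
  have hnn : ∀ t : ℝ, 0 ≤ t → ∀ i, 0 ≤ Function.update lam j t i := by
    intro t ht i
    by_cases h : i = j
    · subst h; simpa using ht
    · rw [Function.update_of_ne h]; exact hl i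
  apply aTAY_aff (dPh (sc lam A) r (A j) (M - (c * s) • A j)) _ (c * s)
  intro L hL
  have h2 : M - (c * s) • A j ∈ GG (sc (Function.update lam j L) A) := by
    apply aTAY_up hPSD hSUP A hA _ _ (hnn _ hcs) _ _ h1
    intro i
    by_cases h : i = j
    · subst h; simpa using hL
    · rw [Function.update_of_ne h, Function.update_of_ne h]
  have h3 := (hDNN (sc (Function.update lam j L) A)
    (aTAY_psd_sc A hA _ (hnn _ (hcs.trans hL))) (A j) _ (hA j) h2).1 r
  rw [aTAY_upd_r hDER (sc lam A) (sc (Function.update lam j L) A) (A j) L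
    (fun N => aTAY_rec hREC hDER A lam j hj L N) r] at h3
  exact h3

/-- the derivatives along the path -/
lemma aTAY_der {m n : ℕ} (B : Fin n → Mat m) (C M : Mat m) (s : ℝ) (r : ℕ) (c : ℝ) :
    HasDerivAt (fun c : ℝ => dPh B r C (M - (c * s) • C))
      (-s * dPh B (r + 1) C (M - (c * s) • C)) c := by
  have h1 := (hDER B C M r (-(c * s))).1
  have h2 : HasDerivAt (fun c : ℝ => -(c * s)) (-s) c := by
    have h0 := ((hasDerivAt_id c).mul_const s).neg
    rw [one_mul] at h0
    exact h0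
  have h3 := HasDerivAt.comp c h1 h2
  have h4 : ∀ c : ℝ, M + (-(c * s)) • C = M - (c * s) • C := by
    intro c
    rw [neg_smul, sub_eq_add_neg]
  have h5 : (fun s => dPh B r C (M + s • C)) ∘ (fun c : ℝ => -(c * s)) =
      fun c : ℝ => dPh B r C (M - (c * s) • C) := by
    funext c
    simp only [Function.comp]
    rw [h4]
  rw [h5, h4] at h3
  rw [mul_comm]
  exact h3

lemma aTAY_one {m n : ℕ} (A : Fin n → Mat m) (hA : Psd A) (lam : Fin n → ℝ)
    (hl : ∀ i, 0 ≤ lam i) (j : Fin n) (hj : lam j = 0) (s : ℝ) (hs : 0 ≤ s) (M : Mat m)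
    (hM : M ∈ GG (sc lam A)) (hM' : M - s • A j ∈ GG (sc (Function.update lam j s) A)) :
    Ph (sc lam A) M ≤ Ph (sc (Function.update lam j s) A) (M - s • A j)
      + 1 / 2 * s ^ 2 * dPh (sc lam A) 2 (A j) M ∧
    Ph (sc (Function.update lam j s) A) (M - s • A j) ≤ Ph (sc lam A) M := by
  have hpos := aTAY_pos hREC hDER hHOM hPSD hSUP hDNN A hA lam hl j hj s hs M hM hM'
  have hder := aTAY_der hREC hDER hHOM hPSD hSUP hDNN (sc lam A) (A j) M s
  -- the function `psi`
  have hpsi : ∀ c : ℝ, HasDerivAt (fun c : ℝ => dPh (sc lam A) 0 (A j) (M - (c * s) • A j) +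
      c * s * dPh (sc lam A) 1 (A j) (M - (c * s) • A j))
      (-(c * s ^ 2 * dPh (sc lam A) 2 (A j) (M - (c * s) • A j))) c := by
    intro c
    have h1 := hder 0 c
    have h2 := hder 1 c
    have h3 : HasDerivAt (fun c : ℝ => c * s) s c := by
      simpa using (hasDerivAt_id c).mul_const s
    have h4 := h1.add (h3.mul h2)
    refine HasDerivAt.congr_deriv (f := fun c : ℝ => dPh (sc lam A) 0 (A j) (M - (c * s) • A j) +
      c * s * dPh (sc lam A) 1 (A j) (M - (c * s) • A j)) h4 ?_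
    simp only [zero_add, Nat.reduceAdd]
    ring
  have hp0 : dPh (sc lam A) 0 (A j) (M - ((0 : ℝ) * s) • A j) +
      (0 : ℝ) * s * dPh (sc lam A) 1 (A j) (M - ((0 : ℝ) * s) • A j) = Ph (sc lam A) M := by
    rw [(hDER (sc lam A) (A j) _ 0 0).2]
    simp
  have hp1 : dPh (sc lam A) 0 (A j) (M - ((1 : ℝ) * s) • A j) +
      (1 : ℝ) * s * dPh (sc lam A) 1 (A j) (M - ((1 : ℝ) * s) • A j) =
      Ph (sc (Function.update lam j s) A) (M - s • A j) := by
    rw [(hDER (sc lam A) (A j) _ 0 0).2, aTAY_rec hREC hDER A lam j hj s (M - s • A j), one_mul]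
  -- `F_2` decreases
  have hF2 : ∀ c ∈ Set.Icc (0 : ℝ) 1, dPh (sc lam A) 2 (A j) (M - (c * s) • A j) ≤
      dPh (sc lam A) 2 (A j) M := by
    intro c hc
    have h1 : AntitoneOn (fun c : ℝ => dPh (sc lam A) 2 (A j) (M - (c * s) • A j))
        (Set.Icc 0 1) := by
      apply antitoneOn_of_deriv_nonpos (convex_Icc 0 1)
      · intro x hx
        exact (hder 2 x).continuousAt.continuousWithinAt
      · intro x hx
        exact (hder 2 x).differentiableAt.differentiableWithinAt
      · intro x hx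
        rw [interior_Icc] at hx
        rw [(hder 2 x).deriv]
        have h2 := hpos x hx.1.le hx.2.le 2
        have h3 : 0 ≤ s * dPh (sc lam A) (2 + 1) (A j) (M - (x * s) • A j) := mul_nonneg hs h2
        linarith
    have h2 := h1 (Set.left_mem_Icc.mpr zero_le_one) hc hc.1
    simpa using h2
  constructor
  · have h1 : MonotoneOn (fun c : ℝ => (dPh (sc lam A) 0 (A j) (M - (c * s) • A j) +
        c * s * dPh (sc lam A) 1 (A j) (M - (c * s) • A j)) +
        c ^ 2 * (1 / 2 * s ^ 2 * dPh (sc lam A) 2 (A j) M)) (Set.Icc 0 1) := by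
      have hd : ∀ x : ℝ, HasDerivAt (fun c : ℝ => (dPh (sc lam A) 0 (A j) (M - (c * s) • A j) +
          c * s * dPh (sc lam A) 1 (A j) (M - (c * s) • A j)) +
          c ^ 2 * (1 / 2 * s ^ 2 * dPh (sc lam A) 2 (A j) M))
          (-(x * s ^ 2 * dPh (sc lam A) 2 (A j) (M - (x * s) • A j)) +
            x * s ^ 2 * dPh (sc lam A) 2 (A j) M) x := by
        intro x
        have h2 : HasDerivAt (fun c : ℝ => c ^ 2 * (1 / 2 * s ^ 2 * dPh (sc lam A) 2 (A j) M))
            ((2 * x) * (1 / 2 * s ^ 2 * dPh (sc lam A) 2 (A j) M)) x := by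
          have h3 : HasDerivAt (fun c : ℝ => c ^ 2) (2 * x) x := by
            simpa using hasDerivAt_pow 2 x
          exact h3.mul_const _
        have h4 := (hpsi x).add h2
        refine HasDerivAt.congr_deriv (f := fun c : ℝ =>
          (dPh (sc lam A) 0 (A j) (M - (c * s) • A j) +
          c * s * dPh (sc lam A) 1 (A j) (M - (c * s) • A j)) +
          c ^ 2 * (1 / 2 * s ^ 2 * dPh (sc lam A) 2 (A j) M)) h4 ?_
        ring
      apply monotoneOn_of_deriv_nonneg (convex_Icc 0 1)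
      · intro x hx
        exact (hd x).continuousAt.continuousWithinAt
      · intro x hx
        exact (hd x).differentiableAt.differentiableWithinAt
      · intro x hx
        rw [interior_Icc] at hx
        rw [(hd x).deriv]
        have h2 := hF2 x ⟨hx.1.le, hx.2.le⟩
        have h3 : 0 ≤ x * s ^ 2 := mul_nonneg hx.1.le (sq_nonneg s)
        have h4 := mul_le_mul_of_nonneg_left h2 h3
        linarith
    have h2 := h1 (Set.left_mem_Icc.mpr zero_le_one) (Set.right_mem_Icc.mpr zero_le_one)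
      zero_le_one
    simp only [] at h2
    rw [hp0, hp1] at h2
    linarith
  · have h1 : AntitoneOn (fun c : ℝ => (dPh (sc lam A) 0 (A j) (M - (c * s) • A j) +
        c * s * dPh (sc lam A) 1 (A j) (M - (c * s) • A j))) (Set.Icc 0 1) := by
      apply antitoneOn_of_deriv_nonpos (convex_Icc 0 1)
      · intro x hx
        exact (hpsi x).continuousAt.continuousWithinAt
      · intro x hx
        exact (hpsi x).differentiableAt.differentiableWithinAt
      · intro x hx
        rw [interior_Icc] at hx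
        rw [(hpsi x).deriv]
        have h2 := hpos x hx.1.le hx.2.le 1
        have h3 : 0 ≤ x * s ^ 2 * dPh (sc lam A) (1 + 1) (A j) (M - (x * s) • A j) :=
          mul_nonneg (mul_nonneg hx.1.le (sq_nonneg s)) h2
        linarith
    have h2 := h1 (Set.left_mem_Icc.mpr zero_le_one) (Set.right_mem_Icc.mpr zero_le_one)
      zero_le_one
    simp only [] at h2
    rw [hp0, hp1] at h2
    exact h2

end one

/-! ### Two more directions -/

/-- extension of the weights -/
def aTAY_w {n : ℕ} (lam : Fin n → ℝ) (u : ℝ) : Fin (n + 1) → ℝ :=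
  Fin.snoc (α := fun _ => ℝ) lam u

lemma aTAY_w_cast {n : ℕ} (lam : Fin n → ℝ) (u : ℝ) (i : Fin n) :
    aTAY_w lam u i.castSucc = lam i := by
  simp [aTAY_w]

lemma aTAY_w_last {n : ℕ} (lam : Fin n → ℝ) (u : ℝ) : aTAY_w lam u (Fin.last n) = u := by
  simp [aTAY_w]

lemma aTAY_w_nn {n : ℕ} (lam : Fin n → ℝ) (u : ℝ) (hl : ∀ i, 0 ≤ lam i) (hu : 0 ≤ u) :
    ∀ i, 0 ≤ aTAY_w lam u i := by
  intro i
  induction i using Fin.lastCases with
  | last => rw [aTAY_w_last]; exact hu
  | cast i => rw [aTAY_w_cast]; exact hl i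

lemma aTAY_w_mono {n : ℕ} (lam mu : Fin n → ℝ) (u v : ℝ) (hl : ∀ i, lam i ≤ mu i) (hu : u ≤ v) :
    ∀ i, aTAY_w lam u i ≤ aTAY_w mu v i := by
  intro i
  induction i using Fin.lastCases with
  | last => rw [aTAY_w_last, aTAY_w_last]; exact hu
  | cast i => rw [aTAY_w_cast, aTAY_w_cast]; exact hl i

lemma aTAY_w_upd_last {n : ℕ} (lam : Fin n → ℝ) (u v : ℝ) :
    Function.update (aTAY_w lam u) (Fin.last n) v = aTAY_w lam v := by
  funext i
  induction i using Fin.lastCases with
  | last => rw [Function.update_self, aTAY_w_last]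
  | cast i =>
    rw [Function.update_of_ne (Fin.castSucc_lt_last i).ne, aTAY_w_cast, aTAY_w_cast]

lemma aTAY_w_upd_cast {n : ℕ} (lam : Fin n → ℝ) (u v : ℝ) (j : Fin n) :
    Function.update (aTAY_w lam u) j.castSucc v = aTAY_w (Function.update lam j v) u := by
  funext i
  induction i using Fin.lastCases with
  | last =>
    rw [Function.update_of_ne (Fin.castSucc_lt_last j).ne', aTAY_w_last, aTAY_w_last]
  | cast i =>
    rw [aTAY_w_cast]
    by_cases h : i = j
    · subst h
      rw [Function.update_self, Function.update_self]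
    · have h' : i.castSucc ≠ j.castSucc := fun h0 => h (Fin.castSucc_injective n h0)
      rw [Function.update_of_ne h, Function.update_of_ne h', aTAY_w_cast]

lemma aTAY_sc_w {m n : ℕ} (lam : Fin n → ℝ) (u : ℝ) (A : Fin n → Mat m) (D : Mat m) :
    sc (aTAY_w lam u) (aTAY_sn A D) = aTAY_sn (sc lam A) (u • D) := by
  funext i
  induction i using Fin.lastCases with
  | last => simp only [sc]; rw [aTAY_w_last, aTAY_sn_last, aTAY_sn_last]
  | cast i =>
    simp only [sc]
    rw [aTAY_w_cast, aTAY_sn_cast, aTAY_sn_cast]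
    rfl

lemma aTAY_psd_sn {m n : ℕ} (A : Fin n → Mat m) (D : Mat m) (hA : Psd A) (hD : D.PosSemidef) :
    Psd (aTAY_sn A D) := by
  intro i
  induction i using Fin.lastCases with
  | last => rw [aTAY_sn_last]; exact hD
  | cast i => rw [aTAY_sn_cast]; exact hA i

lemma aTAY_Ph_w0 {m n : ℕ} (lam : Fin n → ℝ) (A : Fin n → Mat m) (D N : Mat m) :
    Ph (sc (aTAY_w lam 0) (aTAY_sn A D)) N = Ph (sc lam A) N := by
  rw [aTAY_sc_w, zero_smul, aTAY_Ph_sn]

lemma aTAY_GG_w0 {m n : ℕ} (lam : Fin n → ℝ) (A : Fin n → Mat m) (D : Mat m) :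
    GG (sc (aTAY_w lam 0) (aTAY_sn A D)) = GG (sc lam A) := by
  unfold GG
  simp only [aTAY_Ph_w0]

/-- one more direction -/
lemma aTAY_Ph_w (hREC : aREC_stmt) (hDER : aDER_stmt) {m n : ℕ} (lam : Fin n → ℝ)
    (A : Fin n → Mat m) (D : Mat m) (u : ℝ) (N : Mat m) :
    Ph (sc (aTAY_w lam u) (aTAY_sn A D)) N = Ph (sc lam A) N + u * dPh (sc lam A) 1 D N := by
  have h1 := aTAY_rec hREC hDER (aTAY_sn A D) (aTAY_w lam 0) (Fin.last n) (aTAY_w_last _ _) u N
  rw [aTAY_w_upd_last, aTAY_Ph_w0, aTAY_sn_last] at h1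
  rw [h1, aTAY_dPh_congr hDER (sc (aTAY_w lam 0) (aTAY_sn A D)) (sc lam A)
    (fun M => aTAY_Ph_w0 lam A D M) D 1 N]

lemma aTAY_Ph_ww (hREC : aREC_stmt) (hDER : aDER_stmt) {m n : ℕ} (lam : Fin n → ℝ)
    (A : Fin n → Mat m) (D : Mat m) (u : ℝ) (N : Mat m) :
    Ph (sc (aTAY_w (aTAY_w lam u) u) (aTAY_sn (aTAY_sn A D) D)) N =
      Ph (sc lam A) N + 2 * u * dPh (sc lam A) 1 D N + u ^ 2 * dPh (sc lam A) 2 D N := by
  rw [aTAY_Ph_w hREC hDER (aTAY_w lam u) (aTAY_sn A D) D u N, aTAY_Ph_w hREC hDER lam A D u N,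
    aTAY_upd_r hDER (sc lam A) (sc (aTAY_w lam u) (aTAY_sn A D)) D u
      (fun M => aTAY_Ph_w hREC hDER lam A D u M) 1 N]
  ring

section two

variable (hREC : aREC_stmt) (hDER : aDER_stmt) (hHOM : aHOM_stmt) (hPSD : aPSD_stmt)
  (hSUP : aSUP_stmt) (hDNN : aDNN_stmt)

include hREC hDER hHOM hPSD hSUP hDNN

lemma aTAY_two {m n : ℕ} (A : Fin n → Mat m) (hA : Psd A) (lam : Fin n → ℝ)
    (hl : ∀ i, 0 ≤ lam i) (j : Fin n) (hj : lam j = 0) (s : ℝ) (hs : 0 ≤ s) (M : Mat m)
    (hM : M ∈ GG (sc lam A)) (hM' : M - s • A j ∈ GG (sc (Function.update lam j s) A))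
    (D : Mat m) (hD : D.PosSemidef) :
    dPh (sc (Function.update lam j s) A) 2 D (M - s • A j) ≤ dPh (sc lam A) 2 D M := by
  have key : ∀ u : ℝ, 0 ≤ u → 0 ≤ (Ph (sc lam A) M - Ph (sc (Function.update lam j s) A) (M - s • A j))
      + 2 * u * (dPh (sc lam A) 1 D M - dPh (sc (Function.update lam j s) A) 1 D (M - s • A j))
      + u ^ 2 * (dPh (sc lam A) 2 D M -
          dPh (sc (Function.update lam j s) A) 2 D (M - s • A j)) := by
    intro u hu
    have hA1 := aTAY_psd_sn A D hA hD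
    have hA2 := aTAY_psd_sn _ D hA1 hD
    have hup : ∀ (mu : Fin n → ℝ) (hmu : ∀ i, 0 ≤ mu i) (N : Mat m), N ∈ GG (sc mu A) →
        N ∈ GG (sc (aTAY_w (aTAY_w mu u) u) (aTAY_sn (aTAY_sn A D) D)) := by
      intro mu hmu N hN
      rw [← aTAY_GG_w0 mu A D, ← aTAY_GG_w0 (aTAY_w mu 0) (aTAY_sn A D) D] at hN
      refine aTAY_up hPSD hSUP _ hA2 _ _ (aTAY_w_nn _ _ (aTAY_w_nn _ _ hmu le_rfl) le_rfl) ?_ _ hN
      exact aTAY_w_mono _ _ _ _ (aTAY_w_mono _ _ _ _ (fun i => le_rfl) hu) hu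
    have hnn : ∀ i, 0 ≤ Function.update lam j s i := by
      intro i
      by_cases h : i = j
      · subst h; simpa using hs
      · rw [Function.update_of_ne h]; exact hl i
    have h1 := hup lam hl M hM
    have h2 := hup _ hnn _ hM'
    have h3 : aTAY_w (aTAY_w (Function.update lam j s) u) u =
        Function.update (aTAY_w (aTAY_w lam u) u) j.castSucc.castSucc s := by
      rw [aTAY_w_upd_cast, aTAY_w_upd_cast]
    have h4 : aTAY_sn (aTAY_sn A D) D j.castSucc.castSucc = A j := by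
      rw [aTAY_sn_cast, aTAY_sn_cast]
    have h5 := (aTAY_one hREC hDER hHOM hPSD hSUP hDNN (aTAY_sn (aTAY_sn A D) D) hA2
      (aTAY_w (aTAY_w lam u) u) (aTAY_w_nn _ _ (aTAY_w_nn _ _ hl hu) hu) j.castSucc.castSucc
      (by rw [aTAY_w_cast, aTAY_w_cast, hj]) s hs M h1 (by rw [h4, ← h3]; exact h2)).2
    rw [h4, ← h3, aTAY_Ph_ww hREC hDER, aTAY_Ph_ww hREC hDER] at h5
    linarith
  have := aTAY_quad _ _ _ key
  linarith

end two

/-! ### The induction -/

lemma aTAY_wt_nn {n : ℕ} (S J : Finset (Fin n)) (K s : ℝ) (hK : 0 ≤ K) (hs : 0 ≤ s) (i : Fin n) :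
    0 ≤ wt S K J s i := by
  unfold wt
  split_ifs
  · exact hK
  · exact hs
  · exact le_rfl

lemma aTAY_wt_ins {n : ℕ} (S J : Finset (Fin n)) (K s : ℝ) (j : Fin n) (hjS : j ∉ S) :
    wt S K (insert j J) s = Function.update (wt S K J s) j s := by
  funext i
  by_cases h : i = j
  · subst h
    simp [wt, hjS]
  · rw [Function.update_of_ne h]
    simp [wt, Finset.mem_insert, h]

lemma aTAY_wt_emp {n : ℕ} (S : Finset (Fin n)) (K s : ℝ) : wt S K ∅ s = wt S K ∅ 0 := by
  funext i
  simp [wt]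

lemma aTAY_upd0 {m n : ℕ} (A : Fin n → Mat m) (lam : Fin n → ℝ) (j : Fin n) (hj : lam j = 0)
    (s : ℝ) : Function.update (sc (Function.update lam j s) A) j 0 = sc lam A := by
  funext i
  by_cases h : i = j
  · subst h; simp [sc, hj]
  · rw [Function.update_of_ne h]; simp [sc, Function.update_of_ne h]

/-- Row sn:aTAY. -/
theorem aTAY_of (hREC : aREC_stmt) (hDER : aDER_stmt) (hHOM : aHOM_stmt) (hPSD : aPSD_stmt)
    (hSUP : aSUP_stmt) (hDNN : aDNN_stmt) (hBAR : aBAR_stmt) : aTAY_stmt := by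
  intro m n A hA S J hSJ K s hK hs M
  have main : Disjoint S J → M - s • ∑ j ∈ J, A j ∈ GG (sc (wt S K J s) A) →
      M ∈ GG (sc (wt S K ∅ 0) A) ∧
      (∀ D : Mat m, D.PosSemidef → dPh (sc (wt S K J s) A) 2 D (M - s • ∑ j ∈ J, A j) ≤
        dPh (sc (wt S K ∅ 0) A) 2 D M) ∧
      Ph (sc (wt S K ∅ 0) A) M ≤ Ph (sc (wt S K J s) A) (M - s • ∑ j ∈ J, A j)
        + 1 / 2 * ∑ j ∈ J, s ^ 2 * dPh (sc (wt S K ∅ 0) A) 2 (A j) M := by
    clear hSJ
    induction J using Finset.induction_on with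
    | empty =>
      intro _ hM
      simp only [Finset.sum_empty, smul_zero, sub_zero, mul_zero, add_zero] at hM ⊢
      rw [aTAY_wt_emp] at hM ⊢
      exact ⟨hM, fun D hD => le_rfl, le_rfl⟩
    | insert j J hjJ ih =>
      intro hd hM
      have hjS : j ∉ S := by
        intro h
        exact Finset.disjoint_left.mp hd h (Finset.mem_insert_self j J)
      have hd' : Disjoint S J :=
        Finset.disjoint_of_subset_right (Finset.subset_insert j J) hd
      have hj0 : wt S K J s j = 0 := by simp [wt, hjS, hjJ]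
      have hnn := aTAY_wt_nn S J K s hK hs
      have hsum : M - s • ∑ i ∈ insert j J, A i = (M - s • ∑ i ∈ J, A i) - s • A j := by
        rw [Finset.sum_insert hjJ, smul_add]
        abel
      rw [hsum, aTAY_wt_ins S J K s j hjS] at hM ⊢
      have hnn' : ∀ i, 0 ≤ Function.update (wt S K J s) j s i := by
        intro i
        rw [← aTAY_wt_ins S J K s j hjS]
        exact aTAY_wt_nn S _ K s hK hs i
      have hbar := hBAR _ (aTAY_psd_sc A hA _ hnn') j _ hM
      rw [aTAY_upd0 A _ j hj0 s] at hbar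
      have hscj : sc (Function.update (wt S K J s) j s) A j = s • A j := by simp [sc]
      rw [hscj, sub_add_cancel] at hbar
      obtain ⟨i1, i2, i3⟩ := ih hd' hbar
      have h1 := (aTAY_one hREC hDER hHOM hPSD hSUP hDNN A hA _ hnn j hj0 s hs _ hbar hM).1
      refine ⟨i1, ?_, ?_⟩
      · intro D hD
        exact (aTAY_two hREC hDER hHOM hPSD hSUP hDNN A hA _ hnn j hj0 s hs _ hbar hM D hD).trans
          (i2 D hD)
      · rw [Finset.sum_insert hjJ]
        have h2 := i2 (A j) (hA j)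
        have h3 := mul_le_mul_of_nonneg_left h2 (sq_nonneg s)
        linarith
  intro hM
  exact (main hSJ hM).2.2

end Pool.Agent.helper69.SN
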